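import Mathlib

/-!
# MP_bcda77_nt: first occurrences of powers of two as smallest deficient multipliers
-/

namespace Pool.Agent.Results.MP_bcda77_nt.OnlyAlmostPerfect

/-- the sum of the divisors of `k`. -/
def s (k : ℕ) : ℕ := ∑ d ∈ k.divisors, d

/-- `a n` is the least `k ≥ 1` such that `k` is deficient and `k n` is non-deficient
(`0` if there is no such `k`). -/
noncomputable def a (n : ℕ) : ℕ := sInf {k | 1 ≤ k ∧ s k < 2 * k ∧ 2 * (k * n) ≤ s (k * n)}

/-- `p m` is the smallest prime strictly greater than `2 ^ m`. -/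
noncomputable def p (m : ℕ) : ℕ := sInf {q | q.Prime ∧ 2 ^ m < q}

lemma s_mul {m n : ℕ} (h : m.Coprime n) : s (m * n) = s m * s n := by
  unfold s
  exact h.sum_divisors_mul

lemma s_two_pow (j : ℕ) : s (2 ^ j) + 1 = 2 ^ (j + 1) := by
  unfold s
  rw [Nat.sum_divisors_prime_pow Nat.prime_two]
  induction j with
  | zero => simp
  | succ j ih =>
    rw [Finset.sum_range_succ]
    have : 2 ^ (j + 1 + 1) = 2 ^ (j + 1) + 2 ^ (j + 1) := by ring
    omega

lemma s_prime {q : ℕ} (hq : q.Prime) : s q = q + 1 := by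
  unfold s
  rw [hq.sum_divisors]

lemma p_spec (m : ℕ) : (p m).Prime ∧ 2 ^ m < p m := by
  have : (p m) ∈ {q : ℕ | q.Prime ∧ 2 ^ m < q} := by
    apply Nat.sInf_mem
    obtain ⟨q, hq1, hq2⟩ := Nat.exists_infinite_primes (2 ^ m + 1)
    exact ⟨q, hq2, hq1⟩
  exact this

lemma p_le (m q : ℕ) (hq : q.Prime) (h : 2 ^ m < q) : p m ≤ q :=
  Nat.sInf_le ⟨hq, h⟩

lemma p_le_two_mul (m : ℕ) : p m ≤ 2 ^ (m + 1) := by
  obtain ⟨q, hq, h1, h2⟩ := Nat.exists_prime_lt_and_le_two_mul (2 ^ m) (by positivity)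
  have := p_le m q hq h1
  rw [pow_succ]
  omega

/-- facts on `a n = 2 ^ m`. -/
lemma a_facts (m n : ℕ) (hm : 1 ≤ m) (h : a n = 2 ^ m) :
    2 * (2 ^ m * n) ≤ s (2 ^ m * n) ∧ s (2 ^ (m - 1) * n) < 2 * (2 ^ (m - 1) * n) := by
  have hpos : 0 < 2 ^ m := by positivity
  have hne : {k | 1 ≤ k ∧ s k < 2 * k ∧ 2 * (k * n) ≤ s (k * n)}.Nonempty := by
    apply Nat.nonempty_of_pos_sInf
    have : 0 < a n := by rw [h]; exact hpos
    exact this
  have hmem := Nat.sInf_mem hne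
  have h' : sInf {k | 1 ≤ k ∧ s k < 2 * k ∧ 2 * (k * n) ≤ s (k * n)} = 2 ^ m := h
  rw [h'] at hmem
  refine ⟨hmem.2.2, ?_⟩
  by_contra hcon
  push Not at hcon
  have h1 : 2 ^ (m - 1) ∈ {k | 1 ≤ k ∧ s k < 2 * k ∧ 2 * (k * n) ≤ s (k * n)} := by
    refine ⟨Nat.one_le_two_pow, ?_, hcon⟩
    have := s_two_pow (m - 1)
    have e : 2 ^ (m - 1 + 1) = 2 * 2 ^ (m - 1) := by ring
    omega
  have h2 := Nat.sInf_le h1
  rw [h'] at h2
  have e : 2 ^ m = 2 * 2 ^ (m - 1) := by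
    rw [← pow_succ']
    congr 1
    omega
  have : 0 < 2 ^ (m - 1) := by positivity
  omega

/-- odd composite numbers have aliquot sum at least `4`. -/
lemma aliquot (t : ℕ) (ht : 1 < t) (hodd : ¬ 2 ∣ t) (hp : ¬ t.Prime) : t + 4 ≤ s t := by
  have hd := Nat.minFac_prime (show t ≠ 1 by omega)
  have hdt := Nat.minFac_dvd t
  have hlt : t.minFac < t := (Nat.not_prime_iff_minFac_lt ht).1 hp
  have h2 : t.minFac ≠ 2 := by
    intro h
    rw [h] at hdt
    exact hodd hdt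
  have h3 : 3 ≤ t.minFac := by
    have := hd.two_le
    omega
  have hsub : ({1, t.minFac, t} : Finset ℕ) ⊆ t.divisors := by
    intro x hx
    simp only [Finset.mem_insert, Finset.mem_singleton] at hx
    rw [Nat.mem_divisors]
    rcases hx with rfl | rfl | rfl
    · exact ⟨one_dvd _, by omega⟩
    · exact ⟨hdt, by omega⟩
    · exact ⟨dvd_rfl, by omega⟩
  have h4 : ∑ d ∈ ({1, t.minFac, t} : Finset ℕ), d ≤ s t :=
    Finset.sum_le_sum_of_subset hsub
  rw [Finset.sum_insert (by simp; omega), Finset.sum_insert (by simp; omega),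
    Finset.sum_singleton] at h4
  omega

lemma s_ge (t : ℕ) (ht : 0 < t) : t ≤ s t := by
  unfold s
  exact Finset.single_le_sum (f := fun d => d) (fun _ _ => Nat.zero_le _)
    (Nat.mem_divisors_self t ht.ne')

theorem part1 (m : ℕ) (hm : 1 ≤ m) (n : ℕ) (hn : 2 ≤ n) (hlt : n < p m) : a n ≠ 2 ^ m := by
  intro h
  obtain ⟨h1, h2⟩ := a_facts m n hm h
  obtain ⟨k, t, ht, hnt⟩ := Nat.exists_eq_pow_mul_and_not_dvd (show n ≠ 0 by omega) 2 (by norm_num)
  have htpos : 0 < t := Nat.pos_of_ne_zero (by rintro rfl; exact ht (dvd_zero 2))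
  have hcop : ∀ j, (2 ^ j).Coprime t := fun j =>
    Nat.Coprime.pow_left _ ((Nat.Prime.coprime_iff_not_dvd Nat.prime_two).2 ht)
  have e1 : 2 ^ m * n = 2 ^ (m + k) * t := by rw [hnt]; ring
  have e2 : 2 ^ (m - 1) * n = 2 ^ (m - 1 + k) * t := by rw [hnt]; ring
  rw [e1, s_mul (hcop _)] at h1
  rw [e2, s_mul (hcop _)] at h2
  have g1 := s_two_pow (m + k)
  have g2 := s_two_pow (m - 1 + k)
  have e3 : m - 1 + k + 1 = m + k := by omega
  rw [e3] at g2
  set M := 2 ^ (m + k) with hM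
  have g3 : 2 ^ (m + k + 1) = 2 * M := by rw [hM]; ring
  have g4 : 2 * 2 ^ (m - 1 + k) = M := by
    rw [hM, ← pow_succ', e3]
  rw [g3] at g1
  have hM2 : 2 ^ m ≤ M := by
    rw [hM]
    exact Nat.pow_le_pow_right (by norm_num) (by omega)
  have hm2 : 2 ≤ 2 ^ m := by
    calc 2 = 2 ^ 1 := by norm_num
      _ ≤ 2 ^ m := Nat.pow_le_pow_right (by norm_num) hm
  obtain ⟨A, hA⟩ : ∃ A, s t = t + A := ⟨s t - t, by have := s_ge t htpos; omega⟩
  have hs1 : s M = 2 * M - 1 := by omega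
  have hs2 : s (2 ^ (m - 1 + k)) = M - 1 := by omega
  rw [hs1, hA] at h1
  rw [hs2, hA] at h2
  obtain ⟨K, hK⟩ : ∃ K, M = K + 2 := ⟨M - 2, by omega⟩
  have i1 : 2 * M - 1 = 2 * K + 3 := by omega
  have i2 : M - 1 = K + 1 := by omega
  have i3 : 2 * (2 ^ (m - 1 + k) * t) = M * t := by rw [← mul_assoc, g4]
  rw [i1, hK] at h1
  rw [i2, i3, hK] at h2
  -- `t ≤ (2K+3) A` and `(K+1) A < t`
  have j1 : t ≤ (2 * K + 3) * A := by nlinarith
  have j2 : (K + 1) * A < t := by nlinarith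
  have htn : t ≤ n := by
    rw [hnt]
    exact Nat.le_mul_of_pos_left t (by positivity)
  have hA1 : 1 ≤ A := by
    rcases Nat.eq_zero_or_pos A with h0 | h0
    · rw [h0] at j1; omega
    · exact h0
  have ht1 : 1 < t := by
    rcases Nat.lt_or_ge 1 t with h0 | h0
    · exact h0
    · have : t = 1 := by omega
      subst this
      simp [s] at hA
      omega
  by_cases hp : t.Prime
  · rw [s_prime hp] at hA
    have hA' : A = 1 := by omega
    rw [hA'] at j2
    have : 2 ^ m ≤ t := by omega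
    have hne : 2 ^ m ≠ t := by
      intro h0
      apply ht
      rw [← h0]
      exact dvd_pow_self 2 (by omega)
    have := p_le m t hp (by omega)
    omega
  · have hA4 := aliquot t ht1 ht hp
    have hA5 : 4 ≤ A := by omega
    have h5 := p_le_two_mul m
    have h6 : 2 ^ (m + 1) = 2 * 2 ^ m := by ring
    have h7 : (K + 1) * 4 ≤ (K + 1) * A := Nat.mul_le_mul_left _ hA5
    omega

theorem part2 (m : ℕ) (hm : 1 ≤ m) : a (p m) = 2 ^ m ↔
    ∀ k, 1 ≤ k → k < 2 ^ m → s k + 1 = 2 * k → s k < p m := by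
  obtain ⟨hp, hpm⟩ := p_spec m
  have hmem : 2 ^ m ∈ {k | 1 ≤ k ∧ s k < 2 * k ∧ 2 * (k * p m) ≤ s (k * p m)} := by
    have g := s_two_pow m
    have e : 2 ^ (m + 1) = 2 * 2 ^ m := by ring
    have h5 := p_le_two_mul m
    have hcop : (2 ^ m).Coprime (p m) := by
      apply Nat.Coprime.pow_left
      rw [Nat.coprime_primes Nat.prime_two hp]
      intro h0
      have : 2 ≤ 2 ^ m := by
        calc 2 = 2 ^ 1 := by norm_num
          _ ≤ 2 ^ m := Nat.pow_le_pow_right (by norm_num) hm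
      omega
    refine ⟨Nat.one_le_two_pow, by omega, ?_⟩
    rw [s_mul hcop, s_prime hp]
    have hne : p m ≠ 2 ^ (m + 1) := by
      intro h0
      rw [h0] at hp
      exact Nat.Prime.not_prime_pow (by omega) hp
    obtain ⟨r, hr⟩ : ∃ r, 2 ^ (m + 1) = p m + 1 + r := ⟨2 ^ (m + 1) - p m - 1, by omega⟩
    have hs : s (2 ^ m) = p m + r := by omega
    rw [hs]
    nlinarith
  have key : ∀ k, 1 ≤ k → k < 2 ^ m → s k < 2 * k →
      (2 * (k * p m) ≤ s (k * p m) ↔ s k + 1 = 2 * k ∧ p m ≤ s k) := by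
    intro k hk1 hk2 hk3
    have hcop : k.Coprime (p m) := by
      rw [Nat.coprime_comm, Nat.Prime.coprime_iff_not_dvd hp]
      intro hd
      have := Nat.le_of_dvd (by omega) hd
      omega
    rw [s_mul hcop, s_prime hp]
    obtain ⟨d, hd⟩ : ∃ d, 2 * k = s k + 1 + d := ⟨2 * k - s k - 1, by omega⟩
    have e : 2 * (k * p m) = (s k + 1 + d) * p m := by rw [← hd]; ring
    rw [e]
    constructor
    · intro h
      have h1 : (1 + d) * p m ≤ s k := by nlinarith
      have hd0 : d = 0 := by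
        by_contra h0
        have : 1 ≤ d := by omega
        nlinarith
      subst hd0
      exact ⟨by omega, by omega⟩
    · rintro ⟨h1, h2⟩
      have hd0 : d = 0 := by omega
      subst hd0
      nlinarith
  constructor
  · intro h k hk1 hk2 hk3
    by_contra hcon
    push Not at hcon
    have h1 : k ∈ {k | 1 ≤ k ∧ s k < 2 * k ∧ 2 * (k * p m) ≤ s (k * p m)} :=
      ⟨hk1, by omega, (key k hk1 hk2 (by omega)).2 ⟨hk3, hcon⟩⟩
    have h2 := Nat.sInf_le h1
    have h' : sInf {k | 1 ≤ k ∧ s k < 2 * k ∧ 2 * (k * p m) ≤ s (k * p m)} = 2 ^ m := h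
    rw [h'] at h2
    omega
  · intro h
    apply le_antisymm (Nat.sInf_le hmem)
    by_contra hcon
    push Not at hcon
    have h1 := Nat.sInf_mem ⟨_, hmem⟩
    change a (p m) ∈ _ at h1
    obtain ⟨h2, h3⟩ := (key (a (p m)) h1.1 hcon h1.2.1).1 h1.2.2
    have h4 := h (a (p m)) h1.1 hcon h2
    omega

/-- **Main result.**  (1) For `m ≥ 1` no `n` with `2 ≤ n < p m` has `a n = 2 ^ m`.
(2) For `m ≥ 1`, `a (p m) = 2 ^ m` holds if and only if every `k < 2 ^ m` with
`σ(k) = 2 k - 1` has `σ(k) < p m`. -/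
theorem result :
    (∀ m n : ℕ, 1 ≤ m → 2 ≤ n → n < p m → a n ≠ 2 ^ m) ∧
    (∀ m : ℕ, 1 ≤ m → (a (p m) = 2 ^ m ↔
      ∀ k, 1 ≤ k → k < 2 ^ m → s k + 1 = 2 * k → s k < p m)) :=
  ⟨fun m n hm hn h => part1 m hm n hn h, fun m hm => part2 m hm⟩

end Pool.Agent.Results.MP_bcda77_nt.OnlyAlmostPerfect
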